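import Pool.Agent.Helper16.OG.Stmts

set_option autoImplicit false

/-! Row B: consecutive levels. -/

namespace Pool.Agent.Helper16.OG

open Finset

noncomputable section

open scoped Classical

universe u

variable {P : Type u} [PartialOrder P] [BoundedOrder P] [Fintype P]

omit [BoundedOrder P] in
theorem mem_io' {x y z : P} : y ∈ io x z ↔ x < y ∧ y < z := by
  simp [io]

omit [PartialOrder P] [BoundedOrder P] in
theorem mem_lv {rk : P → ℕ} {i : ℕ} {x : P} : x ∈ lv rk i ↔ rk x = i := by
  simp [lv]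

theorem card_swap {α : Type u} (A B : Finset α) (r : α → α → Prop) :
    ∑ x ∈ A, (B.filter (fun y => r x y)).card = ∑ y ∈ B, (A.filter (fun x => r x y)).card := by
  simp only [card_filter]
  exact sum_comm

omit [BoundedOrder P] in
theorem E_right {rk : P → ℕ} (i j : ℕ) :
    E rk i j = ∑ z ∈ lv rk j, ((lv rk i).filter (fun x => x < z)).card := by
  unfold E
  rw [card_filter, sum_product_right]
  apply sum_congr rfl
  intro z _
  rw [card_filter]

/-- number of elements of level `i` below `H` -/
def bb (rk : P → ℕ) (i : ℕ) (H : P) : ℕ := ((lv rk i).filter (fun x => x < H)).card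

/-- the elements of level `i` below some element of `S` -/
def XX (rk : P → ℕ) (i : ℕ) (S : Finset P) : Finset P := (lv rk i).filter (fun x => ∃ H ∈ S, x < H)

/-- the elements of level `i + 1` below some element of `S` -/
def SS (rk : P → ℕ) (i : ℕ) (S : Finset P) : Finset P :=
  (lv rk (i + 1)).filter (fun x => ∃ H ∈ S, x < H)

theorem Thin.above {rk : P → ℕ} {n : ℕ} (h : Thin rk n) {x : P} (hx : rk x ≤ n) :
    ∃ y, x < y ∧ rk y = rk x + 1 := by
  have h1 : x < ⊤ := by
    rw [lt_top_iff_ne_top]
    intro e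
    rw [e, h.top] at hx
    omega
  by_cases h2 : rk x = n
  · exact ⟨⊤, h1, by rw [h.top, h2]⟩
  · obtain ⟨y, hy1, _, hy3⟩ := h.mid x ⊤ h1 (rk x + 1) (by omega) (by rw [h.top]; omega)
    exact ⟨y, hy1, hy3⟩

theorem Thin.below {rk : P → ℕ} {n : ℕ} (h : Thin rk n) {x : P} (hx : 1 ≤ rk x) :
    ∃ y, y < x ∧ rk y + 1 = rk x := by
  have h1 : ⊥ < x := by
    rw [bot_lt_iff_ne_bot]
    intro e
    rw [e, h.bot] at hx
    omega
  by_cases h2 : rk x = 1
  · exact ⟨⊥, h1, by rw [h.bot, h2]⟩
  · obtain ⟨y, _, hy1, hy3⟩ := h.mid ⊥ x h1 (rk x - 1) (by rw [h.bot]; omega) (by omega)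
    exact ⟨y, hy1, by omega⟩

section step

variable {rk : P → ℕ} {n : ℕ} (h : Thin rk n) {i : ℕ} (hi : 1 ≤ i) {G : P} (hG : rk G = i + 2)
include h hG

/-- elements of rank `i` below `G` lie below exactly two elements of `(x, G)` -/
theorem io_card {x : P} (hx : rk x = i) (hxG : x < G) : (io x G).card = 2 :=
  h.thin x G hxG (by rw [hG, hx])

theorem io_rk {x H : P} (hx : rk x = i) (hH : H ∈ io x G) : rk H = i + 1 := by
  rw [mem_io'] at hH
  have h1 := h.mono x H hH.1
  have h2 := h.mono H G hH.2
  omega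

/-- the number of upper neighbours in `C` -/
theorem odd_one {C : Finset P} (hC : ∀ H ∈ C, rk H = i + 1 ∧ H < G) {x H H' : P} (hx : rk x = i)
    (hH : H ∈ C) (hxH : x < H) (hH' : H' ∉ C) (hxH' : x < H') (hG' : H' < G) :
    (C.filter (fun K => x < K)).card = 1 := by
  have hxG : x < G := hxH'.trans hG'
  have h1 := io_card h hG hx hxG
  have h2 : C.filter (fun K => x < K) ⊆ (io x G).erase H' := by
    intro K hK
    rw [mem_filter] at hK
    rw [mem_erase, mem_io']
    refine ⟨?_, hK.2, (hC K hK.1).2⟩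
    intro e
    rw [e] at hK
    exact hH' hK.1
  have h3 := card_le_card h2
  rw [card_erase_of_mem (mem_io'.2 ⟨hxH', hG'⟩), h1] at h3
  have h4 : 0 < (C.filter (fun K => x < K)).card :=
    card_pos.2 ⟨H, mem_filter.2 ⟨hH, hxH⟩⟩
  omega

include hi

/-- the bridges -/
theorem two_bridges {C : Finset P} (hC : ∀ H ∈ C, rk H = i + 1 ∧ H < G) (hne : C.Nonempty)
    {H₀ : P} (hH₀ : rk H₀ = i + 1) (hH₀G : H₀ < G) (hH₀C : H₀ ∉ C) :
    2 ≤ ((lv rk i).filter (fun x => (∃ H ∈ C, x < H) ∧
      ∃ H', H' ∉ C ∧ x < H' ∧ H' < G ∧ rk H' = i + 1)).card := by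
  set O := (lv rk i).filter (fun x => (∃ H ∈ C, x < H) ∧
      ∃ H', H' ∉ C ∧ x < H' ∧ H' < G ∧ rk H' = i + 1) with hO
  have hbG : ⊥ < G := lt_of_le_of_lt bot_le hH₀G
  -- `O` is nonempty
  have hOne : O.Nonempty := by
    by_contra hOe
    rw [not_nonempty_iff_eq_empty] at hOe
    have hcl := h.conn ⊥ G hbG i (i + 1) (by rw [h.bot]; omega) (by omega) (by rw [hG]; omega)
      (C ∪ (lv rk i).filter (fun x => ∃ H ∈ C, x < H)) (hne.mono subset_union_left) (by
        intro y hy
        rw [mem_union, mem_filter, mem_lv] at hy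
        rcases hy with hy | ⟨hy1, H, hH, hyH⟩
        · obtain ⟨h1, h2⟩ := hC y hy
          refine ⟨mem_io'.2 ⟨?_, h2⟩, Or.inr h1⟩
          rw [bot_lt_iff_ne_bot]
          intro e
          rw [e, h.bot] at h1
          omega
        · refine ⟨mem_io'.2 ⟨?_, hyH.trans (hC H hH).2⟩, Or.inl hy1⟩
          rw [bot_lt_iff_ne_bot]
          intro e
          rw [e, h.bot] at hy1
          omega) (by
        intro y hy y' hy' hr hlt
        rw [mem_union, mem_filter, mem_lv] at hy ⊢
        rw [mem_io'] at hy'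
        rcases hy with hy | ⟨hy1, H, hH, hyH⟩
        · obtain ⟨h1, h2⟩ := hC y hy
          rcases hlt with hlt | hlt
          · have := h.mono _ _ hlt
            omega
          · have := h.mono _ _ hlt
            rcases hr with hr | hr
            · exact Or.inr ⟨hr, y, hy, hlt⟩
            · omega
        · rcases hlt with hlt | hlt
          · have := h.mono _ _ hlt
            rcases hr with hr | hr
            · omega
            · by_contra hno
              push Not at hno
              have : y ∈ O := by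
                rw [hO, mem_filter, mem_lv]
                exact ⟨hy1, ⟨H, hH, hyH⟩, y', hno.1, hlt, hy'.2, hr⟩
              rw [hOe] at this
              exact notMem_empty _ this
          · have := h.mono _ _ hlt
            omega)
      H₀ (mem_io'.2 ⟨by
        rw [bot_lt_iff_ne_bot]
        intro e
        rw [e, h.bot] at hH₀
        omega, hH₀G⟩) (Or.inr hH₀)
    rw [mem_union, mem_filter, mem_lv] at hcl
    rcases hcl with hcl | hcl
    · exact hH₀C hcl
    · omega
  obtain ⟨x, hx⟩ := hOne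
  by_contra hlt
  have hone : ∀ y ∈ O, y = x := by
    intro y hy
    by_contra hyx
    apply hlt
    have : ({y, x} : Finset P) ⊆ O := by
      intro v hv
      rw [mem_insert, mem_singleton] at hv
      rcases hv with rfl | rfl
      · exact hy
      · exact hx
    calc 2 = ({y, x} : Finset P).card := (card_pair hyx).symm
      _ ≤ O.card := card_le_card this
  have hx' := hx
  rw [hO, mem_filter, mem_lv] at hx'
  obtain ⟨hxr, ⟨H, hH, hxH⟩, H', hH', hxH', hH'G, hH'r⟩ := hx'
  obtain ⟨y, hyx, hyr⟩ := h.below (x := x) (by omega)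
  -- double counting
  have hdc := card_swap ((lv rk i).filter (fun v => y < v)) (C.filter (fun K => y < K))
    (fun v K => v < K)
  have hR : ∑ K ∈ C.filter (fun K => y < K),
      (((lv rk i).filter (fun v => y < v)).filter (fun v => v < K)).card =
      ∑ K ∈ C.filter (fun K => y < K), 2 := by
    apply sum_congr rfl
    intro K hK
    rw [mem_filter] at hK
    have h1 := h.thin y K hK.2 (by have := (hC K hK.1).1; omega)
    rw [← h1]
    congr 1
    ext v
    rw [mem_filter, mem_filter, mem_lv, mem_io']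
    constructor
    · rintro ⟨⟨_, h2⟩, h3⟩
      exact ⟨h2, h3⟩
    · rintro ⟨h2, h3⟩
      have h4 := h.mono _ _ h2
      have h5 := h.mono _ _ h3
      have h6 := (hC K hK.1).1
      exact ⟨⟨by omega, h2⟩, h3⟩
  rw [hR, sum_const, smul_eq_mul] at hdc
  have hL : ∑ v ∈ (lv rk i).filter (fun v => y < v),
      ((C.filter (fun K => y < K)).filter (fun K => v < K)).card =
      ∑ v ∈ (lv rk i).filter (fun v => y < v), (C.filter (fun K => v < K)).card := by
    apply sum_congr rfl
    intro v hv
    rw [mem_filter] at hv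
    congr 1
    ext K
    rw [mem_filter, mem_filter, mem_filter]
    constructor
    · rintro ⟨⟨h1, _⟩, h3⟩
      exact ⟨h1, h3⟩
    · rintro ⟨h1, h3⟩
      exact ⟨⟨h1, hv.2.trans h3⟩, h3⟩
  rw [hL] at hdc
  have hxm : x ∈ (lv rk i).filter (fun v => y < v) := mem_filter.2 ⟨mem_lv.2 hxr, hyx⟩
  rw [← add_sum_erase _ _ hxm, odd_one h hG hC hxr hH hxH hH' hxH' hH'G] at hdc
  have hev : Even (∑ v ∈ ((lv rk i).filter (fun v => y < v)).erase x,
      (C.filter (fun K => v < K)).card) := by
    apply even_sum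
    intro v hv
    rw [mem_erase, mem_filter, mem_lv] at hv
    obtain ⟨hvx, hvr, _⟩ := hv
    rcases (C.filter (fun K => v < K)).eq_empty_or_nonempty with he | ⟨K, hK⟩
    · rw [he]; simp
    · rw [mem_filter] at hK
      have hvG : v < G := hK.2.trans (hC K hK.1).2
      have h1 : C.filter (fun K => v < K) = io v G := by
        ext L
        rw [mem_filter, mem_io']
        constructor
        · rintro ⟨h1, h2⟩
          exact ⟨h2, (hC L h1).2⟩
        · rintro ⟨h1, h2⟩
          refine ⟨?_, h1⟩
          by_contra hLC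
          apply hvx
          apply hone
          rw [hO, mem_filter, mem_lv]
          exact ⟨hvr, ⟨K, hK.1, hK.2⟩, L, hLC, h1, h2, io_rk h hG hvr (mem_io'.2 ⟨h1, h2⟩)⟩
      rw [h1, io_card h hG hvr hvG]
      exact even_two
  obtain ⟨q, hq⟩ := hev
  rw [hq] at hdc
  omega

omit hi in
/-- the new part attached by `G` -/
theorem step_facts (S : Finset P) :
    (∀ y ∈ XX rk i (S ∪ (lv rk (i + 1)).filter (fun H => H < G ∧ H ∉ S)) \ XX rk i S,
      ((lv rk (i + 1)).filter (fun H => H < G ∧ H ∉ S)).filter (fun H => y < H) = io y G ∧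
      y < G ∧ rk y = i) := by
  intro y hy
  rw [mem_sdiff] at hy
  obtain ⟨hy1, hy2⟩ := hy
  rw [XX, mem_filter, mem_lv] at hy1
  obtain ⟨hyr, H, hH, hyH⟩ := hy1
  have hno : ∀ K ∈ S, ¬ y < K := by
    intro K hK hyK
    exact hy2 (mem_filter.2 ⟨mem_lv.2 hyr, K, hK, hyK⟩)
  have hyG : y < G := by
    rw [mem_union] at hH
    rcases hH with hH | hH
    · exact absurd hyH (hno H hH)
    · exact hyH.trans (mem_filter.1 hH).2.1
  refine ⟨?_, hyG, hyr⟩
  ext K
  rw [mem_filter, mem_filter, mem_io', mem_lv]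
  constructor
  · rintro ⟨⟨_, h2, _⟩, h4⟩
    exact ⟨h4, h2⟩
  · rintro ⟨h1, h2⟩
    exact ⟨⟨io_rk h hG hyr (mem_io'.2 ⟨h1, h2⟩), h2, fun hK => hno K hK h1⟩, h1⟩

/-- counting the incidences of the new part -/
theorem new_count (S : Finset P) (N Y : Finset P)
    (hN : N = (lv rk (i + 1)).filter (fun H => H < G ∧ H ∉ S))
    (hY : Y = XX rk i (S ∪ N) \ XX rk i S) :
    2 * Y.card + ∑ H ∈ N, ((lv rk i).filter (fun x => x < H ∧ x ∉ Y)).card = ∑ H ∈ N, bb rk i H := by
  have hf := step_facts h hG S
  rw [← hN, ← hY] at hf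
  have h1 : ∑ H ∈ N, (Y.filter (fun x => x < H)).card = 2 * Y.card := by
    rw [← card_swap Y N (fun x H => x < H), mul_comm, ← smul_eq_mul, ← sum_const]
    apply sum_congr rfl
    intro y hy
    obtain ⟨h1, h2, h3⟩ := hf y hy
    rw [h1]
    exact io_card h hG h3 h2
  rw [← h1, ← sum_add_distrib]
  apply sum_congr rfl
  intro H _
  unfold bb
  rw [← card_union_of_disjoint]
  · congr 1
    ext x
    rw [mem_union, mem_filter, mem_filter, mem_filter]
    constructor
    · rintro (⟨h4, h5⟩ | ⟨h4, h5, _⟩)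
      · exact ⟨mem_lv.2 (hf x h4).2.2, h5⟩
      · exact ⟨h4, h5⟩
    · rintro ⟨h4, h5⟩
      by_cases h6 : x ∈ Y
      · exact Or.inl ⟨h6, h5⟩
      · exact Or.inr ⟨h4, h5, h6⟩
  · rw [disjoint_left]
    intro x h4 h5
    rw [mem_filter] at h4 h5
    exact h5.2.2 h4.1

/-- the dimension of the new part: some old element is below `G` -/
theorem new_dim (hGL : ST_GL.{u}) (S : Finset P) (N Y : Finset P)
    (hN : N = (lv rk (i + 1)).filter (fun H => H < G ∧ H ∉ S))
    (hY : Y = XX rk i (S ∪ N) \ XX rk i S) {H₀ : P} (hH₀ : rk H₀ = i + 1) (hH₀G : H₀ < G)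
    (hH₀S : H₀ ∈ S) :
    2 * Module.finrank (ZMod 2) (W (fun x y : P => x < y) N Y) + 2 * N.card ≤
      ∑ H ∈ N, bb rk i H := by
  rw [← new_count h hi hG S N Y hN hY]
  have hf := step_facts h hG S
  rw [← hN, ← hY] at hf
  apply hGL P (fun x y : P => x < y) N Y
  · intro y hy
    obtain ⟨h1, h2, h3⟩ := hf y hy
    have h4 := io_card h hG h3 h2
    rw [← h1] at h4
    exact h4
  · intro C hCN hne hcl
    have hC : ∀ H ∈ C, rk H = i + 1 ∧ H < G := by
      intro H hH
      have := hCN hH
      rw [hN, mem_filter, mem_lv] at this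
      exact ⟨this.1, this.2.1⟩
    have h2 := two_bridges h hi hG hC hne hH₀ hH₀G (by
      intro hmem
      have := hCN hmem
      rw [hN, mem_filter] at this
      exact this.2.2 hH₀S)
    refine h2.trans (le_trans (card_le_card ?_) card_biUnion_le)
    intro x hx
    rw [mem_filter, mem_lv] at hx
    obtain ⟨hxr, ⟨H, hH, hxH⟩, H', hH', hxH', hH'G, hH'r⟩ := hx
    rw [mem_biUnion]
    refine ⟨H, hH, mem_filter.2 ⟨mem_lv.2 hxr, hxH, ?_⟩⟩
    intro hxY
    apply hH'
    refine hcl x hxY H hH hxH H' ?_ hxH'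
    have h4 := (hf x hxY).1
    have h5 : H' ∈ io x G := mem_io'.2 ⟨hxH', hH'G⟩
    rw [← h4, mem_filter] at h5
    exact h5.1

/-- the dimension of the first part -/
theorem first_dim (hGL : ST_GL.{u}) (N Y : Finset P)
    (hN : N = (lv rk (i + 1)).filter (fun H => H < G ∧ H ∉ (∅ : Finset P)))
    (hY : Y = XX rk i (∅ ∪ N) \ XX rk i ∅) :
    2 * Module.finrank (ZMod 2) (W (fun x y : P => x < y) N Y) + 2 * N.card ≤
      ∑ H ∈ N, bb rk i H + 2 := by
  have hcount := new_count h hi hG ∅ N Y hN hY
  have hf := step_facts h hG ∅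
  rw [← hN, ← hY] at hf
  obtain ⟨H₀, hH₀G, hH₀⟩ := h.below (x := G) (by omega)
  have hH₀' : rk H₀ = i + 1 := by omega
  have hbG : ⊥ < G := lt_of_le_of_lt bot_le hH₀G
  have hmN : ∀ H, H ∈ N ↔ rk H = i + 1 ∧ H < G := by
    intro H
    rw [hN, mem_filter, mem_lv]
    simp
  have hmY : ∀ x, x ∈ Y ↔ rk x = i ∧ ∃ H ∈ N, x < H := by
    intro x
    rw [hY, mem_sdiff, XX, XX, mem_filter, mem_filter, mem_lv, empty_union]
    simp
  have hbot : ∀ y : P, 1 ≤ rk y → ⊥ < y := by
    intro y hy
    rw [bot_lt_iff_ne_bot]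
    intro e
    rw [e, h.bot] at hy
    omega
  have h1 := hGL P (fun x y : P => x < y) N Y (fun H => if H = H₀ then 2 else 0) (by
    intro y hy
    obtain ⟨h1, h2, h3⟩ := hf y hy
    have h4 := io_card h hG h3 h2
    rw [← h1] at h4
    exact h4) (by
    intro C hCN hne hcl
    have hmem : H₀ ∈ C := by
      have hcl2 := h.conn ⊥ G hbG i (i + 1) (by rw [h.bot]; omega) (by omega) (by rw [hG]; omega)
        (C ∪ (lv rk i).filter (fun x => ∃ H ∈ C, x < H)) (hne.mono subset_union_left) (by
          intro y hy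
          rw [mem_union, mem_filter, mem_lv] at hy
          rcases hy with hy | ⟨hy1, H, hH, hyH⟩
          · obtain ⟨h1, h2⟩ := (hmN y).1 (hCN hy)
            exact ⟨mem_io'.2 ⟨hbot y (by omega), h2⟩, Or.inr h1⟩
          · exact ⟨mem_io'.2 ⟨hbot y (by omega), hyH.trans ((hmN H).1 (hCN hH)).2⟩, Or.inl hy1⟩) (by
          intro y hy y' hy' hr hlt
          rw [mem_union, mem_filter, mem_lv] at hy ⊢
          rw [mem_io'] at hy'
          rcases hy with hy | ⟨hy1, H, hH, hyH⟩
          · obtain ⟨h1, h2⟩ := (hmN y).1 (hCN hy)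
            rcases hlt with hlt | hlt
            · have := h.mono _ _ hlt
              omega
            · have := h.mono _ _ hlt
              rcases hr with hr | hr
              · exact Or.inr ⟨hr, y, hy, hlt⟩
              · omega
          · rcases hlt with hlt | hlt
            · have := h.mono _ _ hlt
              rcases hr with hr | hr
              · omega
              · left
                exact hcl y ((hmY y).2 ⟨hy1, H, hCN hH, hyH⟩) H hH hyH y'
                  ((hmN y').2 ⟨hr, hy'.2⟩) hlt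
            · have := h.mono _ _ hlt
              omega)
        H₀ (mem_io'.2 ⟨hbot H₀ (by omega), hH₀G⟩) (Or.inr hH₀')
      rw [mem_union, mem_filter, mem_lv] at hcl2
      rcases hcl2 with hcl2 | hcl2
      · exact hcl2
      · omega
    rw [sum_ite_eq', if_pos hmem])
  rw [sum_ite_eq', if_pos ((hmN H₀).2 ⟨hH₀', hH₀G⟩)] at h1
  omega

end step

/-- the inequality for a set of elements of rank `i + 2` -/
def Cl (rk : P → ℕ) (i : ℕ) (Q : Finset P) : Prop :=
  2 * Module.finrank (ZMod 2) (W (fun x y : P => x < y) (SS rk i Q) (XX rk i (SS rk i Q))) +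
    2 * (SS rk i Q).card ≤ ∑ H ∈ SS rk i Q, bb rk i H + 2

omit [BoundedOrder P] in
theorem SS_insert {rk : P → ℕ} {i : ℕ} {G : P} {Q : Finset P} :
    SS rk i (insert G Q) = SS rk i Q ∪
      (lv rk (i + 1)).filter (fun H => H < G ∧ H ∉ SS rk i Q) := by
  ext H
  rw [mem_union, mem_filter, SS, SS, mem_filter, mem_filter]
  constructor
  · rintro ⟨h1, K, hK, hHK⟩
    rw [mem_insert] at hK
    by_cases h2 : H ∈ lv rk (i + 1) ∧ ∃ L ∈ Q, H < L
    · exact Or.inl h2
    · rcases hK with e | hK
      · right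
        rw [e] at hHK
        exact ⟨h1, hHK, h2⟩
      · exact Or.inl ⟨h1, K, hK, hHK⟩
  · rintro (⟨h1, K, hK, hHK⟩ | ⟨h1, h2, _⟩)
    · exact ⟨h1, K, mem_insert_of_mem hK, hHK⟩
    · exact ⟨h1, G, mem_insert_self _ _, h2⟩

omit [BoundedOrder P] in
theorem XX_union {rk : P → ℕ} {i : ℕ} {S N : Finset P} :
    XX rk i S ∪ (XX rk i (S ∪ N) \ XX rk i S) = XX rk i (S ∪ N) := by
  apply union_sdiff_of_subset
  intro x hx
  rw [XX, mem_filter] at hx ⊢
  obtain ⟨h1, H, hH, hxH⟩ := hx
  exact ⟨h1, H, mem_union_left _ hH, hxH⟩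

theorem Cl_insert (hGL : ST_GL.{u}) (hSPL : ST_SPL.{u}) {rk : P → ℕ} {n : ℕ} (h : Thin rk n)
    {i : ℕ} (hi : 1 ≤ i) {G : P} (hG : rk G = i + 2) {Q : Finset P} (hQ : Cl rk i Q) {H₀ : P}
    (hH₀G : H₀ < G) (hH₀S : H₀ ∈ SS rk i Q) : Cl rk i (insert G Q) := by
  unfold Cl at hQ ⊢
  rw [SS_insert]
  set S := SS rk i Q with hS
  set N := (lv rk (i + 1)).filter (fun H => H < G ∧ H ∉ S) with hN
  have hH₀ : rk H₀ = i + 1 := by
    rw [hS, SS, mem_filter, mem_lv] at hH₀S
    exact hH₀S.1
  have h1 := new_dim h hi hG hGL S N (XX rk i (S ∪ N) \ XX rk i S) hN rfl hH₀ hH₀G hH₀S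
  have h2 := hSPL P (fun x y : P => x < y) S N (XX rk i S) (XX rk i (S ∪ N) \ XX rk i S)
    disjoint_sdiff (by
      intro y hy H hH hyH
      rw [mem_sdiff] at hy
      apply hy.2
      have h3 := (step_facts h hG S y (by rw [mem_sdiff]; exact hy)).2.2
      exact mem_filter.2 ⟨mem_lv.2 h3, H, hH, hyH⟩)
  rw [XX_union] at h2
  have hd : Disjoint S N := by
    rw [disjoint_left]
    intro x hx hx'
    rw [hN, mem_filter] at hx'
    exact hx'.2.2 hx
  rw [card_union_of_disjoint hd, sum_union hd]
  omega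

theorem Cl_single (hGL : ST_GL.{u}) {rk : P → ℕ} {n : ℕ} (h : Thin rk n)
    {i : ℕ} (hi : 1 ≤ i) {G : P} (hG : rk G = i + 2) : Cl rk i {G} := by
  unfold Cl
  have h0 : SS rk i {G} = (lv rk (i + 1)).filter (fun H => H < G ∧ H ∉ (∅ : Finset P)) := by
    ext H
    rw [SS, mem_filter, mem_filter]
    simp
  have h1 := first_dim h hi hG hGL (SS rk i {G}) (XX rk i (SS rk i {G})) h0 (by
    rw [empty_union]
    ext x
    rw [mem_sdiff]
    constructor
    · intro hx
      refine ⟨hx, ?_⟩
      rw [XX, mem_filter]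
      simp
    · exact fun hx => hx.1)
  exact h1

theorem Cl_all (hGL : ST_GL.{u}) (hSPL : ST_SPL.{u}) {rk : P → ℕ} {n : ℕ} (h : Thin rk n)
    {i : ℕ} (hi : 1 ≤ i) (hin : i + 1 ≤ n) : ∀ (k : ℕ) (Q : Finset P), Q ⊆ lv rk (i + 2) →
    Q.Nonempty → (lv rk (i + 2) \ Q).card ≤ k → Cl rk i Q → Cl rk i (lv rk (i + 2)) := by
  intro k
  induction k with
  | zero =>
    intro Q hQ hne hk hcl
    have h1 : lv rk (i + 2) \ Q = ∅ := card_eq_zero.1 (Nat.le_zero.1 hk)
    rw [sdiff_eq_empty_iff_subset] at h1
    rw [subset_antisymm h1 hQ]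
    exact hcl
  | succ k ih =>
    intro Q hQ hne hk hcl
    by_cases hQe : Q = lv rk (i + 2)
    · rw [← hQe]; exact hcl
    · have hex : ∃ G ∈ lv rk (i + 2), G ∉ Q ∧ ∃ H₀, H₀ < G ∧ H₀ ∈ SS rk i Q := by
        by_contra hno
        push Not at hno
        apply hQe
        apply subset_antisymm hQ
        intro G hG
        rw [mem_lv] at hG
        obtain ⟨G₁, hG₁⟩ := hne
        have hG₁r := mem_lv.1 (hQ hG₁)
        by_cases htop : i + 1 = n
        · -- the top is the only element of rank `i + 2`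
          have huniq : ∀ v : P, rk v = i + 2 → v = ⊤ := by
            intro v hv
            by_contra hvt
            have := h.mono v ⊤ (lt_top_iff_ne_top.2 hvt)
            rw [h.top] at this
            omega
          rw [huniq G hG, ← huniq G₁ hG₁r]
          exact hG₁
        · have hbt : (⊥ : P) < ⊤ := by
            rw [bot_lt_iff_ne_bot]
            intro e
            have h1 := h.top
            rw [e, h.bot] at h1
            omega
          have hb : ∀ y : P, 1 ≤ rk y → ⊥ < y := by
            intro y hy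
            rw [bot_lt_iff_ne_bot]
            intro e
            rw [e, h.bot] at hy
            omega
          have ht : ∀ y : P, rk y ≤ n → y < ⊤ := by
            intro y hy
            rw [lt_top_iff_ne_top]
            intro e
            rw [e, h.top] at hy
            omega
          have hcon := h.conn ⊥ ⊤ hbt (i + 1) (i + 2) (by rw [h.bot]; omega) (by omega)
            (by rw [h.top]; omega) (Q ∪ SS rk i Q) ⟨G₁, mem_union_left _ hG₁⟩ (by
              intro y hy
              rw [mem_union, SS, mem_filter, mem_lv] at hy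
              rcases hy with hy | ⟨hy, _⟩
              · have := mem_lv.1 (hQ hy)
                exact ⟨mem_io'.2 ⟨hb y (by omega), ht y (by omega)⟩, Or.inr this⟩
              · exact ⟨mem_io'.2 ⟨hb y (by omega), ht y (by omega)⟩, Or.inl hy⟩) (by
              intro y hy y' hy' hr hlt
              rw [mem_union] at hy ⊢
              rcases hy with hy | hy
              · have h1 := mem_lv.1 (hQ hy)
                rcases hlt with hlt | hlt
                · have := h.mono _ _ hlt
                  omega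
                · have := h.mono _ _ hlt
                  rcases hr with hr | hr
                  · right
                    rw [SS, mem_filter, mem_lv]
                    exact ⟨hr, y, hy, hlt⟩
                  · omega
              · have h1 : rk y = i + 1 := by
                  rw [SS, mem_filter, mem_lv] at hy
                  exact hy.1
                rcases hlt with hlt | hlt
                · have := h.mono _ _ hlt
                  rcases hr with hr | hr
                  · omega
                  · left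
                    by_contra hno'
                    exact hno y' (mem_lv.2 hr) hno' y hlt hy
                · have := h.mono _ _ hlt
                  omega)
            G (mem_io'.2 ⟨hb G (by omega), ht G (by omega)⟩) (Or.inr hG)
          rw [mem_union, SS, mem_filter, mem_lv] at hcon
          rcases hcon with hcon | hcon
          · exact hcon
          · omega
      obtain ⟨G, hG, hGQ, H₀, hH₀G, hH₀S⟩ := hex
      refine ih (insert G Q) (insert_subset hG hQ) (insert_nonempty _ _) ?_
        (Cl_insert hGL hSPL h hi (mem_lv.1 hG) hcl hH₀G hH₀S)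
      have h2 : lv rk (i + 2) \ insert G Q ⊂ lv rk (i + 2) \ Q := by
        rw [ssubset_iff_of_subset (sdiff_subset_sdiff (Subset.refl _) (subset_insert _ _))]
        refine ⟨G, mem_sdiff.2 ⟨hG, hGQ⟩, ?_⟩
        rw [mem_sdiff]
        exact fun h3 => h3.2 (mem_insert_self _ _)
      have h3 := card_lt_card h2
      omega

theorem st_B (hGL : ST_GL.{u}) (hSPL : ST_SPL.{u}) : ST_B.{u} := by
  intro P _ _ _ n rk h i hi hin
  have hS : SS rk i (lv rk (i + 2)) = lv rk (i + 1) := by
    ext H
    rw [SS, mem_filter, mem_lv]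
    constructor
    · exact fun h1 => h1.1
    · intro h1
      obtain ⟨y, hy1, hy2⟩ := h.above (x := H) (by omega)
      exact ⟨h1, y, mem_lv.2 (by omega), hy1⟩
  have hX : XX rk i (lv rk (i + 1)) = lv rk i := by
    ext H
    rw [XX, mem_filter, mem_lv]
    constructor
    · exact fun h1 => h1.1
    · intro h1
      obtain ⟨y, hy1, hy2⟩ := h.above (x := H) (by omega)
      exact ⟨h1, y, mem_lv.2 (by omega), hy1⟩
  have hne : ∃ G : P, rk G = i + 2 := by
    by_cases h1 : i + 1 = n
    · exact ⟨⊤, by rw [h.top]; omega⟩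
    · obtain ⟨y, _, _, hy⟩ := h.mid ⊥ ⊤ (by
        rw [bot_lt_iff_ne_bot]
        intro e
        have h1 := h.top
        rw [e, h.bot] at h1
        omega) (i + 2) (by rw [h.bot]; omega) (by rw [h.top]; omega)
      exact ⟨y, hy⟩
  obtain ⟨G, hG⟩ := hne
  have h1 := Cl_all hGL hSPL h hi hin _ {G} (by
    intro v hv
    rw [mem_singleton] at hv
    rw [hv, mem_lv]
    exact hG) ⟨G, mem_singleton_self G⟩ le_rfl (Cl_single hGL h hi hG)
  unfold Cl at h1
  rw [hS, hX] at h1
  rw [E_right]
  exact h1

end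

end Pool.Agent.Helper16.OG
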