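import Pool.Agent.Helper16.OG.TH
import Pool.Agent.Helper16.OG.B
import Pool.Agent.Helper77.PMBridge

set_option autoImplicit false

/-! Row FIN: from the inequalities between the levels to `gamma_2 ≥ 0`. -/

namespace Pool.Agent.Helper16.OG

open Finset Pool.Agent.Helper77.PMan Pool.Agent.Helper77.PseudoM

noncomputable section

open scoped Classical

universe u

section

variable {P : Type u} [PartialOrder P] [BoundedOrder P] [Fintype P]

theorem Thin.mem_inner {rk : P → ℕ} {n : ℕ} (h : Thin rk n) (x : P) :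
    x ∈ io (⊥ : P) ⊤ ↔ 1 ≤ rk x ∧ rk x ≤ n := by
  rw [mem_io]
  constructor
  · rintro ⟨h1, h2⟩
    have h3 := h.mono _ _ h1
    have h4 := h.mono _ _ h2
    rw [h.bot] at h3
    rw [h.top] at h4
    omega
  · rintro ⟨h1, h2⟩
    refine ⟨?_, ?_⟩
    · rw [bot_lt_iff_ne_bot]
      intro e
      rw [e, h.bot] at h1
      omega
    · rw [lt_top_iff_ne_top]
      intro e
      rw [e, h.top] at h2
      omega

theorem Thin.inner_lv {rk : P → ℕ} {n : ℕ} (h : Thin rk n) {i : ℕ} (h1 : 1 ≤ i) (h2 : i ≤ n) :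
    (io (⊥ : P) ⊤).filter (fun x => rk x = i) = lv rk i := by
  ext x
  rw [mem_filter, mem_lv, h.mem_inner]
  constructor
  · exact fun h3 => h3.2
  · intro h3
    exact ⟨by omega, h3⟩

theorem Thin.card_inner {rk : P → ℕ} {n : ℕ} (h : Thin rk n) :
    (io (⊥ : P) ⊤).card = ∑ i ∈ Icc 1 n, (lv rk i).card := by
  rw [card_eq_sum_card_fiberwise (f := rk) (t := Icc 1 n)]
  · apply sum_congr rfl
    intro i hi
    rw [mem_Icc] at hi
    rw [h.inner_lv hi.1 hi.2]
  · intro x hx
    rw [mem_coe, mem_Icc]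
    exact (h.mem_inner x).1 hx

theorem Thin.pairs {rk : P → ℕ} {n : ℕ} (h : Thin rk n) :
    ∑ y ∈ io (⊥ : P) ⊤, ((io (⊥ : P) ⊤).filter (fun x => x < y)).card =
      ∑ j ∈ Icc 1 n, ∑ i ∈ Ico 1 j, E rk i j := by
  rw [← sum_fiberwise_of_maps_to (g := rk) (t := Icc 1 n) (fun x hx => by
    rw [mem_Icc]
    exact (h.mem_inner x).1 hx)]
  apply sum_congr rfl
  intro j hj
  rw [mem_Icc] at hj
  rw [h.inner_lv hj.1 hj.2]
  simp only [E_right]
  rw [sum_comm]
  apply sum_congr rfl
  intro y hy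
  rw [mem_lv] at hy
  rw [card_eq_sum_card_fiberwise (f := rk) (t := Ico 1 j)]
  · apply sum_congr rfl
    intro i hi
    rw [mem_Ico] at hi
    congr 1
    ext x
    rw [mem_filter, mem_filter, mem_filter, mem_lv, h.mem_inner]
    constructor
    · rintro ⟨⟨_, h1⟩, h2⟩
      exact ⟨h2, h1⟩
    · rintro ⟨h2, h1⟩
      exact ⟨⟨by omega, h1⟩, h2⟩
  · intro x hx
    rw [mem_coe, mem_filter, h.mem_inner] at hx
    rw [mem_coe, mem_Ico]
    have h1 := h.mono _ _ hx.2
    omega

end

/-- the embedding of a poset in the bounded poset -/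
def emb (V : Type u) (v : V) : WithBot (WithTop V) := ((v : WithTop V) : WithBot (WithTop V))

theorem emb_inj (V : Type u) : Function.Injective (emb V) := by
  intro a b hab
  unfold emb at hab
  exact WithTop.coe_injective (WithBot.coe_injective hab)

theorem emb_lt {V : Type u} [PartialOrder V] (a b : V) : emb V a < emb V b ↔ a < b := by
  unfold emb
  rw [WithBot.coe_lt_coe, WithTop.coe_lt_coe]

theorem mem_io_emb {V : Type u} [PartialOrder V] [Fintype (WithBot (WithTop V))]
    (x : WithBot (WithTop V)) : x ∈ io (⊥ : WithBot (WithTop V)) ⊤ ↔ ∃ v, emb V v = x := by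
  rw [mem_io]
  constructor
  · rintro ⟨h1, h2⟩
    obtain ⟨y, hy⟩ := WithBot.ne_bot_iff_exists.1 (bot_lt_iff_ne_bot.1 h1)
    have h3 : y ≠ ⊤ := by
      intro e
      rw [e] at hy
      rw [← hy] at h2
      exact lt_irrefl _ h2
    obtain ⟨v, hv⟩ := WithTop.ne_top_iff_exists.1 h3
    refine ⟨v, ?_⟩
    unfold emb
    rw [hv, hy]
  · rintro ⟨v, rfl⟩
    unfold emb
    refine ⟨WithBot.bot_lt_coe _, ?_⟩
    have h1 : ((v : WithTop V) : WithBot (WithTop V)) < ((⊤ : WithTop V) : WithBot (WithTop V)) := by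
      rw [WithBot.coe_lt_coe]
      exact WithTop.coe_lt_top v
    exact h1

theorem two_pairs {V : Type u} [PartialOrder V] [Fintype V] (M : SimpleGraph V)
    (hord : ∀ x y, M.Adj x y ↔ x < y ∨ y < x) :
    e2 M univ = 2 * ∑ y : V, (univ.filter (fun x => x < y)).card := by
  unfold e2
  have h1 : ∀ v ∈ (univ : Finset V), (nb M univ v).card =
      (univ.filter (fun x => v < x)).card + (univ.filter (fun x => x < v)).card := by
    intro v _
    rw [← card_union_of_disjoint]
    · congr 1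
      ext w
      rw [mem_nb, mem_union, mem_filter, mem_filter, hord]
      simp
    · rw [disjoint_left]
      intro w hw hw'
      rw [mem_filter] at hw hw'
      exact lt_asymm hw.2 hw'.2
  rw [sum_congr rfl h1, sum_add_distrib, card_swap univ univ (fun x y : V => x < y)]
  ring

section gen

variable {V P : Type u} [PartialOrder V] [Fintype V] [PartialOrder P] [BoundedOrder P] [Fintype P]
  {e : V → P}

theorem io_eq_image (him : ∀ x, x ∈ io (⊥ : P) ⊤ ↔ ∃ v, e v = x) :
    io (⊥ : P) ⊤ = univ.image e := by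
  ext x
  rw [him, mem_image]
  constructor
  · rintro ⟨v, hv⟩
    exact ⟨v, mem_univ _, hv⟩
  · rintro ⟨v, _, hv⟩
    exact ⟨v, hv⟩

theorem pairs_emb (he : Function.Injective e) (hlt : ∀ a b, e a < e b ↔ a < b)
    (him : ∀ x, x ∈ io (⊥ : P) ⊤ ↔ ∃ v, e v = x) :
    ∑ y : V, (univ.filter (fun x => x < y)).card =
      ∑ y ∈ io (⊥ : P) ⊤, ((io (⊥ : P) ⊤).filter (fun x => x < y)).card := by
  rw [io_eq_image him, sum_image (fun a _ b _ hab => he hab)]
  apply sum_congr rfl
  intro y _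
  rw [← card_image_of_injective _ he]
  congr 1
  ext x
  rw [mem_image, mem_filter, mem_image]
  constructor
  · rintro ⟨v, hv, rfl⟩
    rw [mem_filter] at hv
    exact ⟨⟨v, mem_univ _, rfl⟩, (hlt _ _).2 hv.2⟩
  · rintro ⟨⟨v, _, rfl⟩, hv⟩
    exact ⟨v, mem_filter.2 ⟨mem_univ _, (hlt _ _).1 hv⟩, rfl⟩

theorem main_gen (hA : ST_A.{u}) (hB : ST_B.{u}) (hC : ST_C.{u}) (hD : ST_D.{u}) (hSUM : ST_SUM)
    {d : ℕ} (M : SimpleGraph V)
    (hM : IsPseudomanifold (d + 1) M) (hord : ∀ x y, M.Adj x y ↔ x < y ∨ y < x)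
    (he : Function.Injective e) (hlt : ∀ a b, e a < e b ↔ a < b)
    (him : ∀ x, x ∈ io (⊥ : P) ⊤ ↔ ∃ v, e v = x) (hbt : (⊥ : P) < ⊤) :
    0 ≤ gamma2 (d + 1) M := by
  have hPM : PM (cg P) (d + 2) (io (⊥ : P) ⊤) := by
    rw [io_eq_image him]
    apply bridge he ?_ hM
    intro a b
    rw [hord]
    change _ ↔ (e a < e b ∨ e b < e a)
    rw [hlt, hlt]
  obtain ⟨rk, hrk⟩ := st_RK P (d + 2) hPM hbt
  have hT := st_TH P (d + 2) rk hrk
  obtain ⟨hA1, hA2, hA3⟩ := hA _ _ _ hT (by omega)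
  have hB1 := hB _ _ _ hT
  have hC1 := hC _ _ _ hT
  have hD1 := hD _ _ _ hT
  have hS := hSUM (d + 2) (fun i => ((lv rk i).card : ℤ)) (fun i => (w rk i : ℤ))
    (fun i j => (E rk i j : ℤ)) (by omega)
    (by
      intro i _ h2
      have := hA1 i h2
      exact_mod_cast this)
    (by exact_mod_cast hA2) (by exact_mod_cast hA3)
    (by
      intro i h1 h2
      have := hB1 i h1 h2
      exact_mod_cast this)
    (by
      intro i h1 h2
      have := hC1 i h1 h2
      exact_mod_cast this)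
    (by
      intro i j h1 h2 h3
      have := hD1 i j h1 h2 h3
      exact_mod_cast this)
  have hE : (M.edgeSet.ncard : ℤ) = ∑ j ∈ Icc 1 (d + 2), ∑ i ∈ Ico 1 j, (E rk i j : ℤ) := by
    have h1 := two_edges (G := M)
    rw [two_pairs M hord, pairs_emb he hlt him, hT.pairs] at h1
    push_cast at h1
    linarith
  have hv : (Nat.card V : ℤ) = ∑ i ∈ Icc 1 (d + 2), ((lv rk i).card : ℤ) := by
    have h1 := hT.card_inner
    rw [io_eq_image him, card_image_of_injective _ he, card_univ, ← Nat.card_eq_fintype_card] at h1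
    rw [h1]
    push_cast
    rfl
  unfold gamma2
  rw [hE, hv]
  push_cast at hS ⊢
  linarith

end gen

theorem main_of_rows (hA : ST_A.{u}) (hB : ST_B.{u}) (hC : ST_C.{u}) (hD : ST_D.{u}) (hSUM : ST_SUM)
    (d : ℕ) {V : Type u} [Finite V] [PartialOrder V] (M : SimpleGraph V)
    (hM : IsPseudomanifold d M) (hord : ∀ x y, M.Adj x y ↔ x < y ∨ y < x) :
    0 ≤ gamma2 d M := by
  cases d with
  | zero => exact absurd hM (by simp [IsPseudomanifold])
  | succ d =>
    have : Fintype V := Fintype.ofFinite V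
    have : Fintype (WithBot (WithTop V)) := Fintype.ofFinite _
    exact main_gen hA hB hC hD hSUM M hM hord (emb_inj V) emb_lt mem_io_emb
      (WithBot.bot_lt_coe (⊤ : WithTop V))

end

end Pool.Agent.Helper16.OG
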