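import Pool.Agent.Helper16.OG.Stmts
import Pool.Agent.Helper77.PMMain

set_option autoImplicit false

/-! Row RK: the rank function. -/

namespace Pool.Agent.Helper16.OG

open Finset Pool.Agent.Helper77.PMan

noncomputable section

open scoped Classical

universe u

variable {P : Type u} [PartialOrder P] [BoundedOrder P] [Fintype P]

theorem mem_io {x y z : P} : y ∈ io x z ↔ x < y ∧ y < z := by
  simp [io]

theorem nb_io {y x z : P} (hx : y < x) (hz : x < z) :
    nb (cg P) (io y z) x = io y x ∪ io x z := by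
  ext v
  rw [mem_nb, mem_union, mem_io, mem_io, mem_io]
  constructor
  · rintro ⟨⟨h1, h2⟩, h3 | h3⟩
    · exact Or.inr ⟨h3, h2⟩
    · exact Or.inl ⟨h1, h3⟩
  · rintro (⟨h1, h2⟩ | ⟨h1, h2⟩)
    · exact ⟨⟨h1, h2.trans hz⟩, Or.inr h2⟩
    · exact ⟨⟨hx.trans h1, h2⟩, Or.inl h1⟩

theorem split_io {y x z : P} (hx : y < x) (hz : x < z) {k : ℕ} (h : PM (cg P) k (io y z)) :
    ∃ a b, a + b + 1 = k ∧ PM (cg P) a (io y x) ∧ PM (cg P) b (io x z) := by
  have hmem : x ∈ io y z := mem_io.2 ⟨hx, hz⟩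
  cases k with
  | zero =>
    rw [show io y z = ∅ from h] at hmem
    exact absurd hmem (notMem_empty _)
  | succ k =>
    obtain ⟨a, b, hab, ha, hb⟩ := PM.factor (h.link hmem) (nb_io hx hz) (by
      intro p hp q hq
      rw [mem_io] at hp hq
      exact Or.inl (hp.2.trans hq.1))
    exact ⟨a, b, by omega, ha, hb⟩

theorem st_RK : ST_RK.{u} := by
  intro P _ _ _ n hPM hbt
  have L1 : ∀ z : P, ⊥ < z → ∃ k, PM (cg P) k (io ⊥ z) := by
    intro z hz
    by_cases hzt : z = ⊤
    · rw [hzt]; exact ⟨n, hPM⟩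
    · obtain ⟨a, b, _, ha, _⟩ := split_io hz (lt_top_iff_ne_top.2 hzt) hPM
      exact ⟨a, ha⟩
  choose! k hk using L1
  refine ⟨fun z => if ⊥ < z then k z + 1 else 0, ?_, ?_, ?_, ?_⟩
  · simp
  · rw [if_pos hbt, (hk ⊤ hbt).unique hPM]
  · intro x z hxz
    have hz : ⊥ < z := lt_of_le_of_lt bot_le hxz
    by_cases hx : ⊥ < x
    · obtain ⟨a, b, hab, ha, hb⟩ := split_io hx hxz (hk z hz)
      have h1 := (hk x hx).unique ha
      simp only [if_pos hz, if_pos hx]
      omega
    · simp only [if_pos hz, if_neg hx]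
      omega
  · intro x z hxz
    have hz : ⊥ < z := lt_of_le_of_lt bot_le hxz
    by_cases hx : ⊥ < x
    · obtain ⟨a, b, hab, ha, hb⟩ := split_io hx hxz (hk z hz)
      have h1 := (hk x hx).unique ha
      simp only [if_pos hz, if_pos hx]
      have h2 : k z + 1 - (k x + 1) - 1 = b := by omega
      rw [h2]
      exact hb
    · have hx' : x = ⊥ := by
        by_contra h
        exact hx (bot_lt_iff_ne_bot.2 h)
      simp only [if_pos hz, if_neg hx]
      have h2 : k z + 1 - 0 - 1 = k z := by omega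
      rw [h2, hx']
      exact hk z hz

end

end Pool.Agent.Helper16.OG
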