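import Pool.Agent.Helper77.PMBase

set_option autoImplicit false

/-! Statements of the rows for `gamma_2 ≥ 0` for discrete pseudomanifolds whose graph is a
comparability graph. -/

namespace Pool.Agent.Helper16.OG

open Finset Pool.Agent.Helper77.PMan

noncomputable section

open scoped Classical

universe u

/-- the `F₂`-valued functions supported on `Y` whose sum over `{x ∈ Y : r x H}` vanishes for every
`H ∈ N` -/
def W {α : Type u} (r : α → α → Prop) (N Y : Finset α) : Submodule (ZMod 2) (α → ZMod 2) where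
  carrier := {T | (∀ x, x ∉ Y → T x = 0) ∧ ∀ H ∈ N, ∑ x ∈ Y.filter (fun x => r x H), T x = 0}
  zero_mem' := by
    refine ⟨fun _ _ => rfl, fun H _ => ?_⟩
    simp
  add_mem' := by
    rintro S T ⟨hS1, hS2⟩ ⟨hT1, hT2⟩
    refine ⟨fun x hx => ?_, fun H hH => ?_⟩
    · rw [Pi.add_apply, hS1 x hx, hT1 x hx, add_zero]
    · have h : ∑ x ∈ Y.filter (fun x => r x H), (S + T) x =
          ∑ x ∈ Y.filter (fun x => r x H), S x + ∑ x ∈ Y.filter (fun x => r x H), T x := by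
        rw [← sum_add_distrib]
        rfl
      rw [h, hS2 H hH, hT2 H hH, add_zero]
  smul_mem' := by
    rintro c T ⟨hT1, hT2⟩
    refine ⟨fun x hx => ?_, fun H hH => ?_⟩
    · rw [Pi.smul_apply, hT1 x hx, smul_zero]
    · have h : ∑ x ∈ Y.filter (fun x => r x H), (c • T) x =
          c • ∑ x ∈ Y.filter (fun x => r x H), T x := by
        rw [smul_sum]
        rfl
      rw [h, hT2 H hH, smul_zero]

/-- pure linear algebra: cycles of a graph with nodes `N` and edges `Y` -/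
def ST_GL : Prop :=
  ∀ (α : Type u) [Fintype α] (r : α → α → Prop) (N Y : Finset α) (o : α → ℕ),
    (∀ y ∈ Y, (N.filter (fun H => r y H)).card = 2) →
    (∀ C ⊆ N, C.Nonempty → (∀ y ∈ Y, ∀ H ∈ C, r y H → ∀ H' ∈ N, r y H' → H' ∈ C) →
      2 ≤ ∑ H ∈ C, o H) →
    2 * Module.finrank (ZMod 2) (W r N Y) + 2 * N.card ≤ 2 * Y.card + ∑ H ∈ N, o H

/-- pure linear algebra: adding new nodes `N₂` and new edges `Y₂` not touching the old nodes -/
def ST_SPL : Prop :=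
  ∀ (α : Type u) [Fintype α] (r : α → α → Prop) (N₁ N₂ Y₁ Y₂ : Finset α),
    Disjoint Y₁ Y₂ → (∀ y ∈ Y₂, ∀ H ∈ N₁, ¬ r y H) →
    Module.finrank (ZMod 2) (W r (N₁ ∪ N₂) (Y₁ ∪ Y₂)) ≤
      Module.finrank (ZMod 2) (W r N₁ Y₁) + Module.finrank (ZMod 2) (W r N₂ Y₂)

/-- pure linear algebra: `δ ∘ δ = 0` -/
def ST_EX : Prop :=
  ∀ (α : Type u) [Fintype α] (r : α → α → Prop) (Y₀ Y₁ Y₂ : Finset α),
    (∀ y ∈ Y₀, ∀ H ∈ Y₂, Even ((Y₁.filter (fun x => r y x ∧ r x H)).card)) →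
    Y₀.card ≤ Module.finrank (ZMod 2) (W r Y₁ Y₀) + Module.finrank (ZMod 2) (W r Y₂ Y₁)

/-- pure linear algebra: one non trivial condition -/
def ST_DR : Prop :=
  ∀ (α : Type u) [Fintype α] (r : α → α → Prop) (N Y : Finset α),
    (∃ H ∈ N, ∃ y ∈ Y, r y H) → Module.finrank (ZMod 2) (W r N Y) + 1 ≤ Y.card

/-- pure combinatorics: growing a bipartite graph by complete bipartite pieces -/
def ST_BIP : Prop :=
  ∀ (α : Type u) (K : Finset α) (A B : α → Finset α), K.Nonempty →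
    (∀ k ∈ K, 2 ≤ (A k).card ∧ 2 ≤ (B k).card) →
    (∀ S ⊆ K, S.Nonempty → S ≠ K → ∃ k ∈ S, ∃ l ∈ K, l ∉ S ∧ 2 ≤ (A k ∩ A l).card ∧
      2 ≤ (B k ∩ B l).card) →
    2 * (K.biUnion A).card + 2 * (K.biUnion B).card ≤
      (K.biUnion (fun k => A k ×ˢ B k)).card + 4

section poset

variable {P : Type u} [PartialOrder P] [BoundedOrder P] [Fintype P]

/-- the comparability graph -/
def cg (P : Type u) [PartialOrder P] : SimpleGraph P where
  Adj x y := x < y ∨ y < x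
  symm := ⟨fun _ _ h => h.symm⟩
  loopless := ⟨fun x h => h.elim (lt_irrefl x) (lt_irrefl x)⟩

/-- open intervals -/
def io (x z : P) : Finset P := univ.filter (fun y => x < y ∧ y < z)

/-- `rk` is a rank function all of whose intervals are pseudomanifolds -/
structure Grd (rk : P → ℕ) (n : ℕ) : Prop where
  bot : rk ⊥ = 0
  top : rk ⊤ = n + 1
  mono : ∀ x z : P, x < z → rk x < rk z
  pm : ∀ x z : P, x < z → PM (cg P) (rk z - rk x - 1) (io x z)

/-- existence of the rank function -/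
def ST_RK : Prop :=
  ∀ (P : Type u) [PartialOrder P] [BoundedOrder P] [Fintype P] (n : ℕ),
    PM (cg P) n (io (⊥ : P) ⊤) → (⊥ : P) < ⊤ → ∃ rk : P → ℕ, Grd rk n

/-- thin, saturated and connected -/
structure Thin (rk : P → ℕ) (n : ℕ) : Prop where
  bot : rk ⊥ = 0
  top : rk ⊤ = n + 1
  mono : ∀ x z : P, x < z → rk x < rk z
  mid : ∀ x z : P, x < z → ∀ k, rk x < k → k < rk z → ∃ y, x < y ∧ y < z ∧ rk y = k
  thin : ∀ x z : P, x < z → rk z = rk x + 2 → (io x z).card = 2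
  conn : ∀ x z : P, x < z → ∀ i j, rk x < i → i < j → j < rk z → ∀ S : Finset P, S.Nonempty →
    (∀ y ∈ S, y ∈ io x z ∧ (rk y = i ∨ rk y = j)) →
    (∀ y ∈ S, ∀ y' ∈ io x z, (rk y' = i ∨ rk y' = j) → (y < y' ∨ y' < y) → y' ∈ S) →
    ∀ y ∈ io x z, (rk y = i ∨ rk y = j) → y ∈ S

/-- from pseudomanifolds to thin posets -/
def ST_TH : Prop :=
  ∀ (P : Type u) [PartialOrder P] [BoundedOrder P] [Fintype P] (n : ℕ) (rk : P → ℕ),
    Grd rk n → Thin rk n

/-- the level sets -/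
def lv (rk : P → ℕ) (i : ℕ) : Finset P := univ.filter (fun x => rk x = i)

/-- the pairs of comparable elements of levels `i` and `j` -/
def E (rk : P → ℕ) (i j : ℕ) : ℕ := ((lv rk i ×ˢ lv rk j).filter (fun p => p.1 < p.2)).card

/-- dimension of the space of cocycles of level `i` -/
def w (rk : P → ℕ) (i : ℕ) : ℕ :=
  Module.finrank (ZMod 2) (W (fun x y : P => x < y) (lv rk (i + 1)) (lv rk i))

/-- (a): ranks -/
def ST_A : Prop :=
  ∀ (P : Type u) [PartialOrder P] [BoundedOrder P] [Fintype P] (n : ℕ) (rk : P → ℕ),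
    Thin rk n → 1 ≤ n → (∀ i, i + 1 ≤ n → (lv rk i).card ≤ w rk i + w rk (i + 1)) ∧
      1 ≤ w rk 1 ∧ w rk n + 1 ≤ (lv rk n).card

/-- (b): consecutive levels -/
def ST_B : Prop :=
  ∀ (P : Type u) [PartialOrder P] [BoundedOrder P] [Fintype P] (n : ℕ) (rk : P → ℕ),
    Thin rk n → ∀ i, 1 ≤ i → i + 1 ≤ n →
      2 * w rk i + 2 * (lv rk (i + 1)).card ≤ E rk i (i + 1) + 2

/-- (c): gap two -/
def ST_C : Prop :=
  ∀ (P : Type u) [PartialOrder P] [BoundedOrder P] [Fintype P] (n : ℕ) (rk : P → ℕ),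
    Thin rk n → ∀ i, 1 ≤ i → i + 2 ≤ n →
      E rk i (i + 1) + E rk (i + 1) (i + 2) ≤ E rk i (i + 2) + 2 * (lv rk (i + 1)).card

/-- (d): gap at least three -/
def ST_D : Prop :=
  ∀ (P : Type u) [PartialOrder P] [BoundedOrder P] [Fintype P] (n : ℕ) (rk : P → ℕ),
    Thin rk n → ∀ i j, 1 ≤ i → i + 3 ≤ j → j ≤ n →
      2 * (lv rk i).card + 2 * (lv rk j).card ≤ E rk i j + 4

end poset

/-- (e): the summation; levels shifted by one -/
def ST_SUM : Prop :=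
  ∀ (n : ℕ) (a w : ℕ → ℤ) (E : ℕ → ℕ → ℤ), 1 ≤ n →
    (∀ i, 1 ≤ i → i + 1 ≤ n → a i ≤ w i + w (i + 1)) → 1 ≤ w 1 → w n + 1 ≤ a n →
    (∀ i, 1 ≤ i → i + 1 ≤ n → 2 * w i + 2 * a (i + 1) ≤ E i (i + 1) + 2) →
    (∀ i, 1 ≤ i → i + 2 ≤ n → E i (i + 1) + E (i + 1) (i + 2) ≤ E i (i + 2) + 2 * a (i + 1)) →
    (∀ i j, 1 ≤ i → i + 3 ≤ j → j ≤ n → 2 * a i + 2 * a j ≤ E i j + 4) →
    (2 * (n : ℤ) - 3) * ∑ i ∈ Icc 1 n, a i - 2 * (n : ℤ) * ((n : ℤ) - 2) ≤
      ∑ j ∈ Icc 1 n, ∑ i ∈ Ico 1 j, E i j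

end

end Pool.Agent.Helper16.OG
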