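import Pool.Agent.Helper16.OG.RK

set_option autoImplicit false

/-! Row TH: graded posets with pseudomanifold intervals are thin, saturated and connected. -/

namespace Pool.Agent.Helper16.OG

open Finset Pool.Agent.Helper77.PMan

noncomputable section

open scoped Classical

universe u

variable {P : Type u} [PartialOrder P] [BoundedOrder P] [Fintype P]

theorem Grd.mid {rk : P → ℕ} {n : ℕ} (h : Grd rk n) : ∀ (m : ℕ) (x z : P), rk z - rk x ≤ m →
    x < z → ∀ k, rk x < k → k < rk z → ∃ y, x < y ∧ y < z ∧ rk y = k := by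
  intro m
  induction m with
  | zero =>
    intro x z hm hxz k h1 h2
    omega
  | succ m ih =>
    intro x z hm hxz k h1 h2
    have hpm := h.pm x z hxz
    obtain ⟨l, hl⟩ : ∃ l, rk z - rk x - 1 = l + 1 := ⟨rk z - rk x - 2, by omega⟩
    rw [hl] at hpm
    obtain ⟨y, hy⟩ := hpm.nonempty
    rw [mem_io] at hy
    have h3 := h.mono x y hy.1
    have h4 := h.mono y z hy.2
    rcases lt_trichotomy (rk y) k with h5 | h5 | h5
    · obtain ⟨v, hv1, hv2, hv3⟩ := ih y z (by omega) hy.2 k h5 h2
      exact ⟨v, hy.1.trans hv1, hv2, hv3⟩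
    · exact ⟨y, hy.1, hy.2, h5⟩
    · obtain ⟨v, hv1, hv2, hv3⟩ := ih x y (by omega) hy.1 k h1 h5
      exact ⟨v, hv1, hv2.trans hy.2, hv3⟩

theorem Grd.conn {rk : P → ℕ} {n : ℕ} (h : Grd rk n) : ∀ (m : ℕ) (x z : P), rk z - rk x ≤ m →
    x < z → ∀ i j, rk x < i → i < j → j < rk z → ∀ S : Finset P, S.Nonempty →
    (∀ y ∈ S, y ∈ io x z ∧ (rk y = i ∨ rk y = j)) →
    (∀ y ∈ S, ∀ y' ∈ io x z, (rk y' = i ∨ rk y' = j) → (y < y' ∨ y' < y) → y' ∈ S) →
    ∀ y ∈ io x z, (rk y = i ∨ rk y = j) → y ∈ S := by
  intro m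
  induction m with
  | zero =>
    intro x z hm hxz i j h1 h2 h3
    omega
  | succ m ih =>
    intro x z hm hxz i j hi hij hj S hS hST hcl
    have hmid := fun (x z : P) (hxz : x < z) => h.mid (rk z - rk x) x z le_rfl hxz
    -- the stars are connected
    have claim1 : ∀ y ∈ io x z, ∀ t ∈ S, (t = y ∨ t < y ∨ y < t) → ∀ t' ∈ io x z,
        (rk t' = i ∨ rk t' = j) → (t' = y ∨ t' < y ∨ y < t') → t' ∈ S := by
      intro y hy t ht hty t' ht' hr' hty'
      have hy' := mem_io.1 hy
      obtain ⟨htI, hr⟩ := hST t ht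
      have htI' := mem_io.1 htI
      have ht'I := mem_io.1 ht'
      have m1 : ∀ a b : P, a < b → rk a < rk b := h.mono
      by_cases hyT : rk y = i ∨ rk y = j
      · have hyS : y ∈ S := by
          rcases hty with e | hlt | hlt
          · rw [← e]; exact ht
          · exact hcl t ht y hy hyT (Or.inl hlt)
          · exact hcl t ht y hy hyT (Or.inr hlt)
        rcases hty' with e | hlt | hlt
        · rw [e]; exact hyS
        · exact hcl y hyS t' ht' hr' (Or.inr hlt)
        · exact hcl y hyS t' ht' hr' (Or.inl hlt)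
      · have hyi : rk y ≠ i := fun e => hyT (Or.inl e)
        have hyj : rk y ≠ j := fun e => hyT (Or.inr e)
        have hne : t ≠ y := by
          intro e
          rw [e] at hr
          exact hyT hr
        have hne' : t' ≠ y := by
          intro e
          rw [e] at hr'
          exact hyT hr'
        have hc : t < y ∨ y < t := by
          rcases hty with e | hlt
          · exact absurd e hne
          · exact hlt
        have hc' : t' < y ∨ y < t' := by
          rcases hty' with e | hlt
          · exact absurd e hne'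
          · exact hlt
        have up : ∀ s : P, (s < y ∨ y < s) → rk y < rk s → y < s := by
          intro s hs hrs
          rcases hs with hs | hs
          · have := m1 s y hs; omega
          · exact hs
        have dn : ∀ s : P, (s < y ∨ y < s) → rk s < rk y → s < y := by
          intro s hs hrs
          rcases hs with hs | hs
          · exact hs
          · have := m1 y s hs; omega
        by_cases h1 : rk y < i
        · -- both above `y`
          have a1 : y < t := up t hc (by omega)
          have a2 : y < t' := up t' hc' (by omega)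
          have := ih y z (by have := m1 x y hy'.1; have := m1 y z hy'.2; omega) hy'.2 i j h1 hij hj
            (S.filter (fun s => y < s)) ⟨t, mem_filter.2 ⟨ht, a1⟩⟩ (by
              intro s hs
              rw [mem_filter] at hs
              exact ⟨mem_io.2 ⟨hs.2, (mem_io.1 (hST s hs.1).1).2⟩, (hST s hs.1).2⟩) (by
              intro s hs s' hs' hrs hss
              rw [mem_filter] at hs ⊢
              rw [mem_io] at hs'
              exact ⟨hcl s hs.1 s' (mem_io.2 ⟨hy'.1.trans hs'.1, hs'.2⟩) hrs hss, hs'.1⟩)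
            t' (mem_io.2 ⟨a2, ht'I.2⟩) hr'
          exact (mem_filter.1 this).1
        · by_cases h2 : j < rk y
          · have a1 : t < y := dn t hc (by omega)
            have a2 : t' < y := dn t' hc' (by omega)
            have := ih x y (by have := m1 x y hy'.1; have := m1 y z hy'.2; omega) hy'.1 i j hi hij
              h2 (S.filter (fun s => s < y)) ⟨t, mem_filter.2 ⟨ht, a1⟩⟩ (by
                intro s hs
                rw [mem_filter] at hs
                exact ⟨mem_io.2 ⟨(mem_io.1 (hST s hs.1).1).1, hs.2⟩, (hST s hs.1).2⟩) (by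
                intro s hs s' hs' hrs hss
                rw [mem_filter] at hs ⊢
                rw [mem_io] at hs'
                exact ⟨hcl s hs.1 s' (mem_io.2 ⟨hs'.1, hs'.2.trans hy'.2⟩) hrs hss, hs'.2⟩)
              t' (mem_io.2 ⟨ht'I.1, a2⟩) hr'
            exact (mem_filter.1 this).1
          · have hi' : i < rk y := by omega
            have hj' : rk y < j := by omega
            obtain ⟨p, hp1, hp2, hp3⟩ := hmid x y hy'.1 i hi hi'
            obtain ⟨q, hq1, hq2, hq3⟩ := hmid y z hy'.2 j hj' hj
            have hpI : p ∈ io x z := mem_io.2 ⟨hp1, hp2.trans hy'.2⟩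
            have hqI : q ∈ io x z := mem_io.2 ⟨hy'.1.trans hq1, hq2⟩
            -- `p` and `q` lie in `S`
            have hpq : p ∈ S ∧ q ∈ S := by
              rcases hr with hr | hr
              · have a1 : t < y := dn t hc (by omega)
                have a2 : q ∈ S := hcl t ht q hqI (Or.inr hq3) (Or.inl (a1.trans hq1))
                exact ⟨hcl q a2 p hpI (Or.inl hp3) (Or.inr (hp2.trans hq1)), a2⟩
              · have a1 : y < t := up t hc (by omega)
                have a2 : p ∈ S := hcl t ht p hpI (Or.inl hp3) (Or.inr (hp2.trans a1))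
                exact ⟨a2, hcl p a2 q hqI (Or.inr hq3) (Or.inl (hp2.trans hq1))⟩
            rcases hr' with hr' | hr'
            · have a1 : t' < y := dn t' hc' (by omega)
              exact hcl q hpq.2 t' ht' (Or.inl hr') (Or.inr (a1.trans hq1))
            · have a1 : y < t' := up t' hc' (by omega)
              exact hcl p hpq.1 t' ht' (Or.inr hr') (Or.inl (hp2.trans a1))
    -- adjacent elements have a common neighbour of rank `i`
    have claim2 : ∀ y y' : P, x < y → y < y' → y' < z → ∃ t ∈ io x z, rk t = i ∧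
        (t = y ∨ t < y ∨ y < t) ∧ (t = y' ∨ t < y' ∨ y' < t) := by
      intro y y' h1 h2 h3
      rcases lt_trichotomy i (rk y) with h4 | h4 | h4
      · obtain ⟨p, hp1, hp2, hp3⟩ := hmid x y h1 i hi h4
        exact ⟨p, mem_io.2 ⟨hp1, hp2.trans (h2.trans h3)⟩, hp3, Or.inr (Or.inl hp2),
          Or.inr (Or.inl (hp2.trans h2))⟩
      · exact ⟨y, mem_io.2 ⟨h1, h2.trans h3⟩, h4.symm, Or.inl rfl, Or.inr (Or.inl h2)⟩
      · rcases lt_trichotomy i (rk y') with h5 | h5 | h5
        · obtain ⟨p, hp1, hp2, hp3⟩ := hmid y y' h2 i h4 h5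
          exact ⟨p, mem_io.2 ⟨h1.trans hp1, hp2.trans h3⟩, hp3, Or.inr (Or.inr hp1),
            Or.inr (Or.inl hp2)⟩
        · exact ⟨y', mem_io.2 ⟨h1.trans h2, h3⟩, h5.symm, Or.inr (Or.inr h2), Or.inl rfl⟩
        · obtain ⟨p, hp1, hp2, hp3⟩ := hmid y' z h3 i h5 (by omega)
          exact ⟨p, mem_io.2 ⟨h1.trans (h2.trans hp1), hp2⟩, hp3, Or.inr (Or.inr (h2.trans hp1)),
            Or.inr (Or.inr hp1)⟩
    have hconn : Conn (cg P) (io x z) := by
      have hpm := h.pm x z hxz
      obtain ⟨l, hl⟩ : ∃ l, rk z - rk x - 1 = l + 2 := ⟨rk z - rk x - 3, by omega⟩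
      rw [hl] at hpm
      exact hpm.conn
    have hB := hconn ((io x z).filter (fun y => ∃ t ∈ S, (t = y ∨ t < y ∨ y < t)))
      (filter_subset _ _) (by
        obtain ⟨t, ht⟩ := hS
        exact ⟨t, mem_filter.2 ⟨(hST t ht).1, t, ht, Or.inl rfl⟩⟩) (by
        intro y hy y' hy' hadj
        rw [mem_filter] at hy ⊢
        obtain ⟨hyI, t, ht, hty⟩ := hy
        refine ⟨hy', ?_⟩
        have hyI' := mem_io.1 hyI
        have hy'I := mem_io.1 hy'
        rcases hadj with hlt | hlt
        · obtain ⟨s, hs, hsr, hs1, hs2⟩ := claim2 y y' hyI'.1 hlt hy'I.2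
          exact ⟨s, claim1 y hyI t ht hty s hs (Or.inl hsr) hs1, hs2⟩
        · obtain ⟨s, hs, hsr, hs1, hs2⟩ := claim2 y' y hy'I.1 hlt hyI'.2
          exact ⟨s, claim1 y hyI t ht hty s hs (Or.inl hsr) hs2, hs1⟩)
    intro y hy hyr
    have h1 : y ∈ (io x z).filter (fun y => ∃ t ∈ S, (t = y ∨ t < y ∨ y < t)) := by
      rw [hB]; exact hy
    rw [mem_filter] at h1
    obtain ⟨_, t, ht, hty⟩ := h1
    rcases hty with e | hlt | hlt
    · rw [← e]; exact ht
    · exact hcl t ht y hy hyr (Or.inl hlt)
    · exact hcl t ht y hy hyr (Or.inr hlt)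

theorem st_TH : ST_TH.{u} := by
  intro P _ _ _ n rk h
  refine ⟨h.bot, h.top, h.mono, ?_, ?_, ?_⟩
  · intro x z hxz
    exact h.mid _ x z le_rfl hxz
  · intro x z hxz hr
    have hpm := h.pm x z hxz
    have h1 : rk z - rk x - 1 = 1 := by omega
    rw [h1] at hpm
    exact hpm.card_two
  · intro x z hxz
    exact h.conn _ x z le_rfl hxz

end

end Pool.Agent.Helper16.OG
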